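import Pool.Agent.Helper17.RZ.St2

/-!
# Project RZ (MP_77656e_ag), module B2: a local homotopy equivalence gives quasi-isomorphic DG algebras

The mapping cone of the composition with a local homotopy equivalence is acyclic: filtration by the
Cech degree.
-/

set_option autoImplicit false
set_option linter.unusedSimpArgs false
set_option linter.unusedVariables false
set_option linter.unusedSectionVars false

namespace Pool.Agent.Helper88.RZ

open Pool.Agent.Helper17.RZ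

universe u v

noncomputable section

/-! ### The abstract induction -/

section Abs

variable {A B : ℤ → Type u} [∀ n, AddCommGroup (A n)] [∀ n, AddCommGroup (B n)]

/-- The induction along the filtration: local acyclicity of the cone implies acyclicity. -/
theorem cone_ind (dA : ∀ {n m : ℤ}, n + 1 = m → A n → A m) (dB : ∀ {n m : ℤ}, n + 1 = m → B n → B m)
    (e : ∀ {n : ℤ}, A n → B n)
    (dA_add : ∀ {n m : ℤ} (h : n + 1 = m) (x y : A n), dA h (x + y) = dA h x + dA h y)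
    (dB_add : ∀ {n m : ℤ} (h : n + 1 = m) (x y : B n), dB h (x + y) = dB h x + dB h y)
    (e_add : ∀ {n : ℤ} (x y : A n), e (x + y) = e x + e y)
    (dA_dA : ∀ {l n m : ℤ} (h : l + 1 = n) (h' : n + 1 = m) (x : A l), dA h' (dA h x) = 0)
    (dB_dB : ∀ {l n m : ℤ} (h : l + 1 = n) (h' : n + 1 = m) (x : B l), dB h' (dB h x) = 0)
    (e_d : ∀ {n m : ℤ} (h : n + 1 = m) (x : A n), e (dA h x) = dB h (e x))
    (FA : ℕ → ∀ {n : ℤ}, A n → Prop) (FB : ℕ → ∀ {n : ℤ}, B n → Prop) (N : ℕ)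
    (FA_N : ∀ {n : ℤ} (x : A n), FA N x → x = 0) (FB_N : ∀ {n : ℤ} (x : B n), FB N x → x = 0)
    (step : ∀ (q : ℕ) {p l n m : ℤ} (hp : p + 1 = l) (hl : l + 1 = n) (hn : n + 1 = m) (a : A n) (b : B l),
      dA hn a = 0 → e a = dB hl b → FA q a → FB q b →
        ∃ (a' : A l) (b' : B p), FA (q + 1) (a - dA hl a') ∧ FB (q + 1) (b - e a' + dB hp b')) :
    ∀ (j q : ℕ), q + j = N → ∀ (p l n m : ℤ) (hp : p + 1 = l) (hl : l + 1 = n) (hn : n + 1 = m) (a : A n) (b : B l),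
      dA hn a = 0 → e a = dB hl b → FA q a → FB q b →
        ∃ (a' : A l) (b' : B p), a = dA hl a' ∧ b = e a' - dB hp b' := by
  have dA_zero : ∀ {n m : ℤ} (h : n + 1 = m), dA h (0 : A n) = 0 := by
    intro n m h
    have := dA_add h 0 0
    rw [add_zero] at this
    exact left_eq_add.mp this
  have dB_zero : ∀ {n m : ℤ} (h : n + 1 = m), dB h (0 : B n) = 0 := by
    intro n m h
    have := dB_add h 0 0
    rw [add_zero] at this
    exact left_eq_add.mp this
  have e_zero : ∀ {n : ℤ}, e (0 : A n) = 0 := by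
    intro n
    have := e_add (0 : A n) 0
    rw [add_zero] at this
    exact left_eq_add.mp this
  have dA_sub : ∀ {n m : ℤ} (h : n + 1 = m) (x y : A n), dA h (x - y) = dA h x - dA h y := by
    intro n m h x y
    have := dA_add h (x - y) y
    rw [sub_add_cancel] at this
    rw [this, add_sub_cancel_right]
  have dB_sub : ∀ {n m : ℤ} (h : n + 1 = m) (x y : B n), dB h (x - y) = dB h x - dB h y := by
    intro n m h x y
    have := dB_add h (x - y) y
    rw [sub_add_cancel] at this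
    rw [this, add_sub_cancel_right]
  have e_sub : ∀ {n : ℤ} (x y : A n), e (x - y) = e x - e y := by
    intro n x y
    have := e_add (x - y) y
    rw [sub_add_cancel] at this
    rw [this, add_sub_cancel_right]
  intro j
  induction j with
  | zero =>
    intro q hq p l n m hp hl hn a b ha hab hFa hFb
    rw [add_zero] at hq
    subst hq
    have h1 := FA_N a hFa
    have h2 := FB_N b hFb
    refine ⟨0, 0, ?_, ?_⟩
    · rw [dA_zero]; exact h1
    · rw [e_zero, dB_zero, sub_zero]; exact h2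
  | succ j ih =>
    intro q hq p l n m hp hl hn a b ha hab hFa hFb
    obtain ⟨a', b', h1, h2⟩ := step q hp hl hn a b ha hab hFa hFb
    obtain ⟨a'', b'', h3, h4⟩ := ih (q + 1) (by omega) p l n m hp hl hn (a - dA hl a') (b - e a' + dB hp b')
      (by rw [dA_sub, dA_dA, ha, sub_zero])
      (by rw [e_sub, dB_add, dB_sub, dB_dB, add_zero, hab, e_d]) h1 h2
    refine ⟨a' + a'', b' + b'', ?_, ?_⟩
    · rw [dA_add, ← h3]; abel
    · rw [e_add, dB_add]
      have : b = (b - e a' + dB hp b') + e a' - dB hp b' := by abel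
      rw [this, h4]; abel

end Abs

/-! ### Cochains -/

section Coch

variable {k : Type u} [Field k] {L : Type u} [Field L] [Algebra k L] {I : Type} [LinearOrder I]

/-- the constant cochain -/
def cst {U V : Type u} [AddCommGroup U] [AddCommGroup V] [Module L U] [Module L V] (ε : U →ₗ[L] V) :
    Finset I → (U →ₗ[L] V) := fun σ => if σ.card = 1 then ε else 0

theorem cst_eq_left {U V : Type u} [AddCommGroup U] [AddCommGroup V] [Module L U] [Module L V] (ε : U →ₗ[L] V) :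
    (cst ε : Finset I → _) = fun σ => ε ∘ₗ cone1 U σ := by
  funext σ; unfold cst cone1; split <;> simp

theorem cst_eq_right {U V : Type u} [AddCommGroup U] [AddCommGroup V] [Module L U] [Module L V] (ε : U →ₗ[L] V) :
    (cst ε : Finset I → _) = fun σ => cone1 V σ ∘ₗ ε := by
  funext σ; unfold cst cone1; split <;> simp

theorem cst_ccup {U V W : Type u} [AddCommGroup U] [AddCommGroup V] [AddCommGroup W] [Module L U] [Module L V]
    [Module L W] (ε : V →ₗ[L] W) (c : Finset I → (U →ₗ[L] V)) (hc : c ∅ = 0) (σ : Finset I) :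
    ccup (cst ε) c σ = ε ∘ₗ c σ := by
  conv_rhs => rw [← cone_ccup c hc σ]
  rw [cst_eq_left]
  unfold ccup
  rw [lcomp_sum]
  exact Finset.sum_congr rfl fun i _ => by rw [LinearMap.comp_assoc]

theorem ccup_cst {U V W : Type u} [AddCommGroup U] [AddCommGroup V] [AddCommGroup W] [Module L U] [Module L V]
    [Module L W] (ε : U →ₗ[L] V) (c : Finset I → (V →ₗ[L] W)) (hc : c ∅ = 0) (σ : Finset I) :
    ccup c (cst ε) σ = c σ ∘ₗ ε := by
  conv_rhs => rw [← ccup_cone c hc σ]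
  rw [cst_eq_right]
  unfold ccup
  rw [lsum_comp]
  exact Finset.sum_congr rfl fun i _ => by rw [LinearMap.comp_assoc]

theorem cdel_cone1 (V : Type u) [AddCommGroup V] [Module L V] (σ : Finset I) :
    cdel (cone1 V : Finset I → (V →ₗ[L] V)) σ = 0 := by
  have h0 : (cone1 V : Finset I → (V →ₗ[L] V)) ∅ = 0 := by simp [cone1]
  have h1 := cdel_ccup (cone1 V : Finset I → (V →ₗ[L] V)) (cone1 V) h0 h0 σ
  have h2 : (ccup (cone1 V) (cone1 V) : Finset I → (V →ₗ[L] V)) = cone1 V :=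
    funext fun τ => cone_ccup _ h0 τ
  have h3 : (fun τ : Finset I => (-1 : ℤ) ^ (τ.card - 1) • (cone1 V τ : V →ₗ[L] V)) = cone1 V := by
    funext τ
    unfold cone1
    split
    · rename_i h; rw [h]; simp
    · simp
  have h4 : cdel (cone1 V : Finset I → (V →ₗ[L] V)) ∅ = 0 := by simp [cdel]
  rw [h2, h3, ccup_cone _ h4, cone_ccup _ h4] at h1
  exact left_eq_add.mp h1

theorem cdel_cst {U V : Type u} [AddCommGroup U] [AddCommGroup V] [Module L U] [Module L V] (ε : U →ₗ[L] V)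
    (σ : Finset I) : cdel (cst ε) σ = 0 := by
  rw [cst_eq_left, cdel_comp_left, cdel_cone1, LinearMap.comp_zero]

/-- the part of a cochain on the sets with `q` elements -/
def res {M : Type u} [AddCommGroup M] (q : ℕ) (c : Finset I → M) : Finset I → M :=
  fun σ => if σ.card = q then c σ else 0

theorem res_lt {M : Type u} [AddCommGroup M] (q : ℕ) (c : Finset I → M) (τ : Finset I) (h : τ.card < q) :
    res q c τ = 0 := by unfold res; rw [if_neg h.ne]

theorem res_eq {M : Type u} [AddCommGroup M] (q : ℕ) (c : Finset I → M) (τ : Finset I) (h : τ.card = q) :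
    res q c τ = c τ := by unfold res; rw [if_pos h]

theorem cdel_low {M : Type u} [AddCommGroup M] {q : ℕ} {c : Finset I → M} (h : ∀ τ : Finset I, τ.card < q → c τ = 0)
    (σ : Finset I) (hσ : σ.card ≤ q) : cdel c σ = 0 := by
  unfold cdel
  refine Finset.sum_eq_zero fun i hi' => ?_
  rw [h _ (lt_of_lt_of_le (Finset.card_erase_lt_of_mem hi') hσ), smul_zero]

theorem rawD_low {X Y : GrD k L} {n : ℤ} {q : ℕ} {c : Finset I → (X.V →ₗ[L] Y.V)}
    (h : ∀ τ : Finset I, τ.card < q → c τ = 0) (σ : Finset I) (hσ : σ.card ≤ q) :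
    rawD X Y n c σ = Y.d ∘ₗ c σ - ((n.negOnePow : ℤˣ) : ℤ) • (c σ ∘ₗ X.d) := by
  unfold rawD
  rw [cdel_low h σ hσ, LinearMap.comp_zero, zero_add]

theorem sgn_succ {n m : ℤ} (h : n + 1 = m) : ((m.negOnePow : ℤˣ) : ℤ) = - ((n.negOnePow : ℤˣ) : ℤ) := by
  subst h; rw [Int.negOnePow_succ]; simp

theorem res_mem (S : LocSys.{u, v} k L I) {X Y : S.Obj} {n : ℤ} (q : ℕ)
    {c : Finset I → ((S.G X).V →ₗ[L] (S.G Y).V)} (h0 : c ∅ = 0)
    (hc : ∀ σ : Finset I, σ.Nonempty → c σ ∈ S.H X Y σ ∧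
      IsDeg (X := S.G X) (Y := S.G Y) (n - ((σ.card : ℤ) - 1)) (c σ)) : res q c ∈ S.Hom X Y n := by
  refine ⟨?_, fun σ hσ => ?_⟩
  · unfold res; split
    · exact h0
    · rfl
  · unfold res; split
    · exact hc σ hσ
    · exact ⟨Submodule.zero_mem _, IsDeg.zero⟩

end Coch

/-! ### From the cone to cohomology -/

section Cone

variable {k : Type u} [Field k]

theorem comp_zero' (C : DGCat.{u, v} k) {X Y Z : C.Obj} {n m l : ℤ} (h : n + m = l) (f : C.Hom Y Z n) :
    C.comp h f (0 : C.Hom X Y m) = 0 := map_zero _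

theorem zero_comp' (C : DGCat.{u, v} k) {X Y Z : C.Obj} {n m l : ℤ} (h : n + m = l) (g : C.Hom X Y m) :
    C.comp h (0 : C.Hom Y Z n) g = 0 := by rw [map_zero]; rfl

theorem qpost_of (C : DGCat.{u, v} k) (X Y : C.Obj) (ε : C.Hom X Y 0) (hε : C.d (zero_add 1) ε = 0)
    (FA : ℕ → ∀ {n : ℤ}, C.Hom X X n → Prop) (FB : ℕ → ∀ {n : ℤ}, C.Hom X Y n → Prop) (N : ℕ)
    (FA_0 : ∀ {n : ℤ} (x : C.Hom X X n), FA 0 x) (FB_0 : ∀ {n : ℤ} (x : C.Hom X Y n), FB 0 x)
    (FA_N : ∀ {n : ℤ} (x : C.Hom X X n), FA N x → x = 0) (FB_N : ∀ {n : ℤ} (x : C.Hom X Y n), FB N x → x = 0)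
    (step : ∀ (q : ℕ) {p l n m : ℤ} (hp : p + 1 = l) (hl : l + 1 = n) (hn : n + 1 = m) (a : C.Hom X X n)
      (b : C.Hom X Y l), C.d hn a = 0 → C.comp (zero_add n) ε a = C.d hl b → FA q a → FB q b →
        ∃ (a' : C.Hom X X l) (b' : C.Hom X Y p), FA (q + 1) (a - C.d hl a') ∧
          FB (q + 1) (b - C.comp (zero_add l) ε a' + C.d hp b')) : QPost C X Y ε := by
  have key := cone_ind (A := fun n => C.Hom X X n) (B := fun n => C.Hom X Y n)
    (fun {n m} h x => C.d h x) (fun {n m} h x => C.d h x) (fun {n} x => C.comp (zero_add n) ε x)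
    (fun h x y => map_add _ x y) (fun h x y => map_add _ x y) (fun x y => map_add _ x y)
    (fun h h' x => C.d_d h h' x) (fun h h' x => C.d_d h h' x)
    (fun {n m} h x => by
      have h1 := C.d_comp (zero_add n) h (zero_add 1) h (by omega) (zero_add m) ε x
      rw [h1, hε, zero_comp', zero_add, Int.negOnePow_zero, one_smul])
    FA FB N FA_N FB_N step N 0 (by omega)
  refine ⟨?_, ?_⟩
  · intro l n m h₁ h₂ x y hx hxy
    obtain ⟨a', b', h1, -⟩ := key (l - 1) l n m (by omega) h₁ h₂ x y hx hxy (FA_0 x) (FB_0 y)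
    exact ⟨a', h1⟩
  · intro l n m h₁ h₂ y hy
    obtain ⟨a', b', h1, h2⟩ := key l n m (m + 1) h₁ h₂ rfl 0 y (by rw [map_zero])
      (by change C.comp _ ε 0 = C.d h₂ y; rw [comp_zero', hy]) (FA_0 _) (FB_0 _)
    refine ⟨a', -b', h1.symm, ?_⟩
    rw [map_neg, ← sub_eq_add_neg]
    exact h2

theorem qpre_of (C : DGCat.{u, v} k) (X Y : C.Obj) (ε : C.Hom X Y 0) (hε : C.d (zero_add 1) ε = 0)
    (FA : ℕ → ∀ {n : ℤ}, C.Hom Y Y n → Prop) (FB : ℕ → ∀ {n : ℤ}, C.Hom X Y n → Prop) (N : ℕ)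
    (FA_0 : ∀ {n : ℤ} (x : C.Hom Y Y n), FA 0 x) (FB_0 : ∀ {n : ℤ} (x : C.Hom X Y n), FB 0 x)
    (FA_N : ∀ {n : ℤ} (x : C.Hom Y Y n), FA N x → x = 0) (FB_N : ∀ {n : ℤ} (x : C.Hom X Y n), FB N x → x = 0)
    (step : ∀ (q : ℕ) {p l n m : ℤ} (hp : p + 1 = l) (hl : l + 1 = n) (hn : n + 1 = m) (a : C.Hom Y Y n)
      (b : C.Hom X Y l), C.d hn a = 0 → C.comp (add_zero n) a ε = C.d hl b → FA q a → FB q b →
        ∃ (a' : C.Hom Y Y l) (b' : C.Hom X Y p), FA (q + 1) (a - C.d hl a') ∧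
          FB (q + 1) (b - C.comp (add_zero l) a' ε + C.d hp b')) : QPre C X Y ε := by
  have key := cone_ind (A := fun n => C.Hom Y Y n) (B := fun n => C.Hom X Y n)
    (fun {n m} h x => C.d h x) (fun {n m} h x => C.d h x) (fun {n} x => C.comp (add_zero n) x ε)
    (fun h x y => map_add _ x y) (fun h x y => map_add _ x y)
    (fun x y => by rw [map_add]; rfl)
    (fun h h' x => C.d_d h h' x) (fun h h' x => C.d_d h h' x)
    (fun {n m} h x => by
      have h1 := C.d_comp (add_zero n) h h (zero_add 1) (add_zero m) h x ε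
      rw [h1, hε, comp_zero', smul_zero, add_zero])
    FA FB N FA_N FB_N step N 0 (by omega)
  refine ⟨?_, ?_⟩
  · intro l n m h₁ h₂ x y hx hxy
    obtain ⟨a', b', h1, -⟩ := key (l - 1) l n m (by omega) h₁ h₂ x y hx hxy (FA_0 x) (FB_0 y)
    exact ⟨a', h1⟩
  · intro l n m h₁ h₂ y hy
    obtain ⟨a', b', h1, h2⟩ := key l n m (m + 1) h₁ h₂ rfl 0 y (by rw [map_zero])
      (by change C.comp _ 0 ε = C.d h₂ y; rw [zero_comp', hy]) (FA_0 _) (FB_0 _)
    refine ⟨a', -b', h1.symm, ?_⟩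
    rw [map_neg, ← sub_eq_add_neg]
    exact h2

end Cone

/-! ### The local step -/

section Local

variable {k : Type u} [Field k] {L : Type u} [Field L] [Algebra k L] {I : Type} [LinearOrder I]

theorem local_data {S : LocSys.{u, v} k L I} {X Y : S.Obj} {ε : (S.G X).V →ₗ[L] (S.G Y).V}
    (hε : LocHEq S X Y ε) : ∃ (r : Finset I → ((S.G Y).V →ₗ[L] (S.G X).V))
      (h : Finset I → ((S.G Y).V →ₗ[L] (S.G Y).V)), ∀ σ : Finset I, σ.Nonempty →
        r σ ∈ S.H Y X σ ∧ h σ ∈ S.H Y Y σ ∧ IsDeg (X := S.G Y) (Y := S.G X) 0 (r σ) ∧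
        IsDeg (X := S.G Y) (Y := S.G Y) (-1) (h σ) ∧ r σ ∘ₗ (S.G Y).d = (S.G X).d ∘ₗ r σ ∧
        r σ ∘ₗ ε = LinearMap.id ∧
        LinearMap.id - ε ∘ₗ r σ = (S.G Y).d ∘ₗ h σ + h σ ∘ₗ (S.G Y).d ∧ h σ ∘ₗ ε = 0 := by
  have H : ∀ σ : Finset I, ∃ (r : (S.G Y).V →ₗ[L] (S.G X).V) (h : (S.G Y).V →ₗ[L] (S.G Y).V), σ.Nonempty →
        r ∈ S.H Y X σ ∧ h ∈ S.H Y Y σ ∧ IsDeg (X := S.G Y) (Y := S.G X) 0 r ∧
        IsDeg (X := S.G Y) (Y := S.G Y) (-1) h ∧ r ∘ₗ (S.G Y).d = (S.G X).d ∘ₗ r ∧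
        r ∘ₗ ε = LinearMap.id ∧
        LinearMap.id - ε ∘ₗ r = (S.G Y).d ∘ₗ h + h ∘ₗ (S.G Y).d ∧ h ∘ₗ ε = 0 := by
    intro σ
    by_cases hσ : σ.Nonempty
    · obtain ⟨h1, h2, h3, h4⟩ := hε
      obtain ⟨r, hr, h, hh, hr0, hh0, hrd, hrε, hid⟩ := h4 σ hσ
      refine ⟨r, h ∘ₗ (LinearMap.id - ε ∘ₗ r), fun _ => ⟨hr, ?_, hr0, ?_, hrd, hrε, ?_, ?_⟩⟩
      · exact S.comp_mem Y Y Y σ _ _ hh (Submodule.sub_mem _ (S.id_mem Y σ)
          (S.comp_mem Y X Y σ _ _ (h1 σ hσ) hr))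
      · have e1 : IsDeg (X := S.G Y) (Y := S.G Y) 0 (LinearMap.id - ε ∘ₗ r) := by
          refine IsDeg.id.sub ?_
          have := h2.comp hr0
          rw [add_zero] at this; exact this
        have := hh0.comp e1
        rw [add_zero] at this; exact this
      · have e2 : (S.G Y).d ∘ₗ (LinearMap.id - ε ∘ₗ r) = (LinearMap.id - ε ∘ₗ r) ∘ₗ (S.G Y).d := by
          rw [LinearMap.comp_sub, LinearMap.sub_comp, LinearMap.comp_id, LinearMap.id_comp,
            LinearMap.comp_assoc, hrd, ← LinearMap.comp_assoc, ← LinearMap.comp_assoc, h3]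
        have e3 : (LinearMap.id - ε ∘ₗ r) ∘ₗ (LinearMap.id - ε ∘ₗ r) = LinearMap.id - ε ∘ₗ r := by
          have e4 : (ε ∘ₗ r) ∘ₗ (ε ∘ₗ r) = ε ∘ₗ r := by
            rw [LinearMap.comp_assoc, ← LinearMap.comp_assoc r ε r, hrε, LinearMap.id_comp]
          rw [LinearMap.comp_sub, LinearMap.comp_id, LinearMap.sub_comp, LinearMap.id_comp, e4, sub_self,
            sub_zero]
        calc LinearMap.id - ε ∘ₗ r = (LinearMap.id - ε ∘ₗ r) ∘ₗ (LinearMap.id - ε ∘ₗ r) := e3.symm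
          _ = ((S.G Y).d ∘ₗ h + h ∘ₗ (S.G Y).d) ∘ₗ (LinearMap.id - ε ∘ₗ r) := by rw [← hid]
          _ = _ := by rw [LinearMap.add_comp, LinearMap.comp_assoc, LinearMap.comp_assoc, e2,
                LinearMap.comp_assoc]
      · rw [LinearMap.comp_assoc, LinearMap.sub_comp, LinearMap.comp_assoc, hrε, LinearMap.comp_id,
          LinearMap.id_comp, sub_self, LinearMap.comp_zero]
    · exact ⟨0, 0, fun h => absurd h hσ⟩
  choose r h hrh using H
  exact ⟨r, h, hrh⟩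

variable {S : LocSys.{u, v} k L I} {X Y : S.Obj}

theorem post_step {ε : (S.G X).V →ₗ[L] (S.G Y).V} (hε : LocHEq S X Y ε) (q : ℕ) {p l n : ℤ} (hp : p + 1 = l)
    (hl : l + 1 = n) {a : Finset I → ((S.G X).V →ₗ[L] (S.G X).V)} {b : Finset I → ((S.G X).V →ₗ[L] (S.G Y).V)}
    (ha : a ∈ S.Hom X X n) (hb : b ∈ S.Hom X Y l)
    (hab : ∀ σ, ε ∘ₗ a σ = rawD (S.G X) (S.G Y) l b σ)
    (ha0 : ∀ τ : Finset I, τ.card < q → a τ = 0) (hb0 : ∀ τ : Finset I, τ.card < q → b τ = 0) :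
    ∃ a' ∈ S.Hom X X l, ∃ b' ∈ S.Hom X Y p,
      (∀ τ : Finset I, τ.card < q + 1 → a τ - rawD (S.G X) (S.G X) l a' τ = 0) ∧
      (∀ τ : Finset I, τ.card < q + 1 → b τ - ε ∘ₗ a' τ + rawD (S.G X) (S.G Y) p b' τ = 0) := by
  obtain ⟨r, h, hrh⟩ := local_data hε
  have hbe : b ∅ = 0 := hb.1
  refine ⟨res q (fun σ => r σ ∘ₗ b σ), res_mem S q ?_ ?_, res q (fun σ => -(h σ ∘ₗ b σ)), res_mem S q ?_ ?_, ?_, ?_⟩
  · rw [hbe, LinearMap.comp_zero]
  · intro σ hσ
    obtain ⟨h1, h2, h3, h4, -⟩ := hrh σ hσ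
    refine ⟨S.comp_mem X Y X σ _ _ h1 (hb.2 σ hσ).1, ?_⟩
    have := h3.comp (hb.2 σ hσ).2
    rw [zero_add] at this; exact this
  · rw [hbe, LinearMap.comp_zero, neg_zero]
  · intro σ hσ
    obtain ⟨h1, h2, h3, h4, -⟩ := hrh σ hσ
    refine ⟨Submodule.neg_mem _ (S.comp_mem X Y Y σ _ _ h2 (hb.2 σ hσ).1), ?_⟩
    have := h4.comp (hb.2 σ hσ).2
    rw [show -1 + (l - ((σ.card : ℤ) - 1)) = p - ((σ.card : ℤ) - 1) by omega] at this
    exact this.neg
  · intro τ hτ
    rw [rawD_low (q := q) (fun τ hτ => res_lt q _ τ hτ) τ (by omega)]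
    rcases Nat.lt_or_ge τ.card q with hlt | hge
    · rw [ha0 τ hlt, res_lt q _ τ hlt]; simp
    · have heq : τ.card = q := by omega
      rcases τ.eq_empty_or_nonempty with rfl | hne
      · rw [res_eq q _ _ heq, ha.1, hbe]; simp
      · obtain ⟨-, -, -, -, hrd, hrε, hid, hhε⟩ := hrh τ hne
        rw [res_eq q _ _ heq]
        have e1 := hab τ
        rw [rawD_low hb0 τ (by omega)] at e1
        have e2 := congrArg (fun f => r τ ∘ₗ f) e1
        simp only [← LinearMap.comp_assoc, hrε, LinearMap.id_comp, LinearMap.comp_sub, LinearMap.comp_smul,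
          hrd] at e2
        rw [e2]; simp [LinearMap.comp_assoc]
  · intro τ hτ
    rw [rawD_low (q := q) (fun τ hτ => res_lt q _ τ hτ) τ (by omega)]
    rcases Nat.lt_or_ge τ.card q with hlt | hge
    · rw [hb0 τ hlt, res_lt q _ τ hlt, res_lt q _ τ hlt]; simp
    · have heq : τ.card = q := by omega
      rcases τ.eq_empty_or_nonempty with rfl | hne
      · rw [res_eq q _ _ heq, res_eq q _ _ heq, hbe]; simp
      · obtain ⟨-, -, -, -, hrd, hrε, hid, hhε⟩ := hrh τ hne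
        rw [res_eq q _ _ heq, res_eq q _ _ heq]
        have e1 := hab τ
        rw [rawD_low hb0 τ (by omega), sgn_succ hp] at e1
        ext x
        have f1 := congrArg (fun f => h τ (f x)) e1
        have f2 := congrArg (fun f => f (a τ x)) hhε
        have f3 := congrArg (fun f => f (b τ x)) hid
        simp only [LinearMap.comp_apply, LinearMap.sub_apply, LinearMap.smul_apply, LinearMap.zero_apply,
          LinearMap.add_apply, LinearMap.id_apply, map_sub, map_zsmul] at f1 f2 f3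
        simp only [LinearMap.comp_apply, LinearMap.sub_apply, LinearMap.smul_apply, LinearMap.zero_apply,
          LinearMap.add_apply, LinearMap.neg_apply, map_neg, smul_neg]
        rw [f2, neg_smul, sub_neg_eq_add] at f1
        rw [f3]
        rw [show (S.G Y).d ((h τ) ((b τ) x)) + (h τ) ((S.G Y).d ((b τ) x)) +
          (-(S.G Y).d ((h τ) ((b τ) x)) - -(((p.negOnePow : ℤˣ) : ℤ) • (h τ) ((b τ) ((S.G X).d x)))) =
          (h τ) ((S.G Y).d ((b τ) x)) + ((p.negOnePow : ℤˣ) : ℤ) • (h τ) ((b τ) ((S.G X).d x)) by abel]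
        exact f1.symm

theorem pre_step {ε : (S.G X).V →ₗ[L] (S.G Y).V} (hε : LocHEq S X Y ε) (q : ℕ) {l n : ℤ}
    (hl : l + 1 = n) {a : Finset I → ((S.G Y).V →ₗ[L] (S.G Y).V)} {b : Finset I → ((S.G X).V →ₗ[L] (S.G Y).V)}
    (ha : a ∈ S.Hom Y Y n) (hb : b ∈ S.Hom X Y l) (hda : ∀ σ, rawD (S.G Y) (S.G Y) n a σ = 0)
    (hab : ∀ σ, a σ ∘ₗ ε = rawD (S.G X) (S.G Y) l b σ)
    (ha0 : ∀ τ : Finset I, τ.card < q → a τ = 0) (hb0 : ∀ τ : Finset I, τ.card < q → b τ = 0) :
    ∃ a' ∈ S.Hom Y Y l,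
      (∀ τ : Finset I, τ.card < q + 1 → a τ - rawD (S.G Y) (S.G Y) l a' τ = 0) ∧
      (∀ τ : Finset I, τ.card < q + 1 → b τ - a' τ ∘ₗ ε = 0) := by
  obtain ⟨r, h, hrh⟩ := local_data hε
  have hbe : b ∅ = 0 := hb.1
  refine ⟨res q (fun σ => ((n.negOnePow : ℤˣ) : ℤ) • (a σ ∘ₗ h σ) + b σ ∘ₗ r σ), res_mem S q ?_ ?_, ?_, ?_⟩
  · rw [hbe, ha.1, LinearMap.zero_comp, LinearMap.zero_comp, smul_zero, add_zero]
  · intro σ hσ
    obtain ⟨h1, h2, h3, h4, -⟩ := hrh σ hσ
    refine ⟨Submodule.add_mem _ (zsmul_mem (S.comp_mem Y Y Y σ _ _ (ha.2 σ hσ).1 h2) _)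
      (S.comp_mem Y X Y σ _ _ (hb.2 σ hσ).1 h1), IsDeg.add (IsDeg.zsmul _ ?_) ?_⟩
    · have := (ha.2 σ hσ).2.comp h4
      rw [show n - ((σ.card : ℤ) - 1) + -1 = l - ((σ.card : ℤ) - 1) by omega] at this
      exact this
    · have := (hb.2 σ hσ).2.comp h3
      rw [add_zero] at this; exact this
  · intro τ hτ
    rw [rawD_low (q := q) (fun τ hτ => res_lt q _ τ hτ) τ (by omega)]
    rcases Nat.lt_or_ge τ.card q with hlt | hge
    · rw [ha0 τ hlt, res_lt q _ τ hlt]; simp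
    · have heq : τ.card = q := by omega
      rcases τ.eq_empty_or_nonempty with rfl | hne
      · rw [res_eq q _ _ heq, ha.1, hbe]; simp
      · obtain ⟨-, -, -, -, hrd, hrε, hid, hhε⟩ := hrh τ hne
        rw [res_eq q _ _ heq]
        have e1 := hab τ
        rw [rawD_low hb0 τ (by omega)] at e1
        have e2 := hda τ
        rw [rawD_low ha0 τ (by omega)] at e2
        have hs := sgn_succ hl
        have hss := negOnePow_mul_self n
        have hss' := negOnePow_mul_self l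
        ext x
        have f1 := congrArg (fun f => f (r τ x)) e1
        have f2 := congrArg (fun f => f (h τ x)) e2
        have f3 := congrArg (fun f => a τ (f x)) hid
        have f4 := congrArg (fun f => b τ (f x)) hrd
        simp only [LinearMap.comp_apply, LinearMap.sub_apply, LinearMap.smul_apply, LinearMap.zero_apply,
          LinearMap.add_apply, LinearMap.id_apply, map_sub, map_zsmul, map_add] at f1 f2 f3 f4
        simp only [LinearMap.comp_apply, LinearMap.sub_apply, LinearMap.smul_apply, LinearMap.zero_apply,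
          LinearMap.add_apply, map_add, map_zsmul, smul_add, smul_smul, hs]
        rw [hs] at f2
        rw [mul_neg, hss']
        rw [← f4] at f1
        have f5 := congrArg (fun z => ((l.negOnePow : ℤˣ) : ℤ) • z) f2
        simp only [smul_sub, smul_smul, smul_zero, mul_neg, hss'] at f5
        have f6 : a τ x = a τ ((S.G Y).d (h τ x)) + a τ (h τ ((S.G Y).d x)) + a τ (ε (r τ x)) := by
          rw [← f3]; abel
        rw [f6, f1]
        simp only [neg_smul, one_smul] at f5 ⊢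
        have f7 : ((l.negOnePow : ℤˣ) : ℤ) • (S.G Y).d (a τ (h τ x)) = - a τ ((S.G Y).d (h τ x)) := by
          have := f5
          rw [sub_neg_eq_add] at this
          exact eq_neg_of_add_eq_zero_left this
        rw [f7]
        abel
  · intro τ hτ
    rcases Nat.lt_or_ge τ.card q with hlt | hge
    · rw [hb0 τ hlt, res_lt q _ τ hlt]; simp
    · have heq : τ.card = q := by omega
      rcases τ.eq_empty_or_nonempty with rfl | hne
      · rw [res_eq q _ _ heq, ha.1, hbe]; simp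
      · obtain ⟨-, -, -, -, hrd, hrε, hid, hhε⟩ := hrh τ hne
        rw [res_eq q _ _ heq, LinearMap.add_comp, LinearMap.smul_comp, LinearMap.comp_assoc, hhε,
          LinearMap.comp_assoc, hrε]
        simp

end Local

theorem cst_mem {k : Type u} [Field k] {L : Type u} [Field L] [Algebra k L] {I : Type} [LinearOrder I]
    {S : LocSys.{u, v} k L I} {X Y : S.Obj} {ε : (S.G X).V →ₗ[L] (S.G Y).V} {n : ℤ}
    (h1 : ∀ σ : Finset I, σ.Nonempty → ε ∈ S.H X Y σ) (h2 : IsDeg (X := S.G X) (Y := S.G Y) n ε) :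
    (cst ε : Finset I → _) ∈ S.Hom X Y n := by
  refine ⟨by simp [cst], fun σ hσ => ?_⟩
  unfold cst; split
  · rename_i h; rw [h]; exact ⟨h1 σ hσ, by simpa using h2⟩
  · exact ⟨Submodule.zero_mem _, IsDeg.zero⟩

theorem rawD_cst {k : Type u} [Field k] {L : Type u} [Field L] [Algebra k L] {I : Type} [LinearOrder I]
    {X Y : GrD k L} (ε : X.V →ₗ[L] Y.V) (n : ℤ) (σ : Finset I) :
    rawD X Y n (cst ε) σ = cst (Y.d ∘ₗ ε - ((n.negOnePow : ℤˣ) : ℤ) • (ε ∘ₗ X.d)) σ := by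
  unfold rawD
  rw [cdel_cst, LinearMap.comp_zero, zero_add]
  unfold cst; split
  · rfl
  · simp

theorem locGlob_aux (hEnd : EndQ.{u, v}) {k : Type u} [Field k] {L : Type u} [Field L] [Algebra k L] {I : Type}
    [LinearOrder I] [Fintype I] (S : LocSys.{u, v} k L I) (X Y : S.dg.Obj)
    (ε : (S.G X).V →ₗ[L] (S.G Y).V) (hε : LocHEq S X Y ε) : DGA.QEquiv (S.dg.End X) (S.dg.End Y) := by
  let ε' : S.dg.Hom X Y 0 := ⟨cst ε, cst_mem hε.1 hε.2.1⟩
  have hd : S.dg.d (zero_add 1) ε' = 0 := by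
    refine Subtype.ext (funext fun σ => ?_)
    change rawD (S.G X) (S.G Y) 0 (cst ε) σ = 0
    rw [rawD_cst, hε.2.2.1]
    unfold cst; split
    · simp
    · rfl
  have card_lt : ∀ τ : Finset I, τ.card < Fintype.card I + 1 := fun τ => Nat.lt_succ_of_le (Finset.card_le_univ τ)
  refine hEnd k S.dg X Y ε' hd ?_ ?_
  · refine qpost_of S.dg X Y ε' hd (fun q {n} x => ∀ τ : Finset I, τ.card < q → x.1 τ = 0)
      (fun q {n} x => ∀ τ : Finset I, τ.card < q → x.1 τ = 0) (Fintype.card I + 1)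
      (fun x τ hτ => absurd hτ (Nat.not_lt_zero _)) (fun x τ hτ => absurd hτ (Nat.not_lt_zero _))
      (fun x hx => Subtype.ext (funext fun τ => hx τ (card_lt τ)))
      (fun x hx => Subtype.ext (funext fun τ => hx τ (card_lt τ))) ?_
    intro q p l n m hp hl hn a b ha hab hFa hFb
    have hab' : ∀ σ, ε ∘ₗ a.1 σ = rawD (S.G X) (S.G Y) l b.1 σ := by
      intro σ
      rw [← cst_ccup ε a.1 a.2.1 σ]
      exact congrFun (congrArg Subtype.val hab) σ
    obtain ⟨a', ha', b', hb', h1, h2⟩ := post_step hε q hp hl a.2 b.2 hab' hFa hFb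
    refine ⟨⟨a', ha'⟩, ⟨b', hb'⟩, h1, ?_⟩
    intro τ hτ
    have h3 := h2 τ hτ
    rw [← cst_ccup ε a' ha'.1 τ] at h3
    exact h3
  · refine qpre_of S.dg X Y ε' hd (fun q {n} x => ∀ τ : Finset I, τ.card < q → x.1 τ = 0)
      (fun q {n} x => ∀ τ : Finset I, τ.card < q → x.1 τ = 0) (Fintype.card I + 1)
      (fun x τ hτ => absurd hτ (Nat.not_lt_zero _)) (fun x τ hτ => absurd hτ (Nat.not_lt_zero _))
      (fun x hx => Subtype.ext (funext fun τ => hx τ (card_lt τ)))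
      (fun x hx => Subtype.ext (funext fun τ => hx τ (card_lt τ))) ?_
    intro q p l n m hp hl hn a b ha hab hFa hFb
    have hab' : ∀ σ, a.1 σ ∘ₗ ε = rawD (S.G X) (S.G Y) l b.1 σ := by
      intro σ
      rw [← ccup_cst ε a.1 a.2.1 σ]
      exact congrFun (congrArg Subtype.val hab) σ
    have ha'' : ∀ σ, rawD (S.G Y) (S.G Y) n a.1 σ = 0 := by
      intro σ
      exact congrFun (congrArg Subtype.val ha) σ
    obtain ⟨a', ha', h1, h2⟩ := pre_step hε q hl a.2 b.2 ha'' hab' hFa hFb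
    refine ⟨⟨a', ha'⟩, 0, h1, ?_⟩
    intro τ hτ
    have h3 := h2 τ hτ
    rw [← ccup_cst ε a' ha'.1 τ] at h3
    rw [map_zero, add_zero]
    exact h3

/-- B2 -/
theorem locGlob : EndQ.{u, v} → LocGlob.{u, v} := by
  intro hEnd k _ L _ _ I _ _ S X Y ε hε
  exact locGlob_aux hEnd S X Y ε hε

end

end Pool.Agent.Helper88.RZ
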